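import Pool.Agent.H757D.Stm

/-
Project D17 (helper757, MP_d17ed7_nt, negative answer): for the discriminant form and an odd quadratic character chi one of the two root
numbers of f x psi and f x chi psi is -1.  Definitions and statements: Pool/Agent/H757D/Stm.lean on origin/main (Mathlib only).
TARGET: prove the theorem below, statement unchanged, no sorry, no axioms.  Put auxiliary lemmas before it in the same
namespace (names starting with letters of your own).  Paste the full file back as result (and, if you can, also land it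
as Pool/Agent/H757D/Hec.lean).  If the statement is false or unclear: status='problem' and say why, or message helper757.

PROOF.
coefficients 0 and 1: CuspFormClass.qExpansion_coeff_zero and ModularForm.discriminant_qExpansion_coeff_one.  Hecke operator: for a cusp form f of level one and weight 12 put
(T f)(z) = p^11 f(p z) + (1/p) sum_{b<p} f((z+b)/p).  It is invariant under the weight 12 action of SL(2,Z): the p+1 matrices (p,0;0,1), (1,b;0,p) represent the right cosets SL(2,Z) \ {det = p}; it is enough to check T and S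
(slash_action_generators_SL2Z): for S: (p,0;0,1) S = S (1,0;0,p), (1,0;0,p) S = S (p,0;0,1), and for b prime to p with b b' = -1 mod p: (1,b;0,p) S = (b,-1;p,0) = gamma (1,b';0,p) with gamma = (b, -(1+bb')/p; p, -b') in SL(2,Z).
It is holomorphic and its q-expansion is sum (a(pn) + p^11 a(n/p)) q^n, so it is zero at i oo: a cusp form of weight 12, so T f = c Delta (CuspForm.exists_smul_discriminant_of_weight_eq_twelve), and for f = Delta the
coefficient of q is a(p) = c.  Comparing coefficients gives the claim.  (qExpansion: hasSum_qExpansion, uniqueness of coefficients qExpansion_coeff_unique or the like; a first step could be to prove the identity for the function, then identify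
the coefficients.)
-/

set_option autoImplicit false

namespace Pool.Agent.H757D

open UpperHalfPlane ModularForm
open scoped MatrixGroups

namespace HecP

open Filter Topology

/-- the discriminant as a function on the complex numbers -/
noncomputable def D (w : ℂ) : ℂ := ModularForm.discriminant (ofComplex w)

theorem D_of (z : ℍ) : D (z : ℂ) = ModularForm.discriminant z := by
  unfold D; rw [ofComplex_apply]

theorem D_per : Function.Periodic D 1 := by
  have h := SlashInvariantFormClass.periodic_comp_ofComplex (CuspForm.discriminant) (h := 1)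
    one_mem_strictPeriods_SL
  intro w
  have := h w
  simpa [D] using this

theorem D_add_nat (w : ℂ) (n : ℕ) : D (w + n) = D w := by
  have := D_per.nat_mul n w
  rwa [mul_one] at this

theorem D_inv (γ : SL(2, ℤ)) (z : ℍ) :
    ModularForm.discriminant (γ • z) = denom γ z ^ (12 : ℤ) * ModularForm.discriminant z := by
  have h := congrFun (SlashInvariantForm.slash_action_generators_SL2Z discriminant_S_invariant
    discriminant_T_invariant γ) z
  rw [SL_slash_apply] at h
  rw [← h, zpow_neg]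
  have : denom γ z ^ (12 : ℤ) ≠ 0 := zpow_ne_zero _ (denom_ne_zero _ _)
  field_simp

theorem D_tr (a b c d : ℤ) (hdet : a * d - b * c = 1) (w : ℂ) (hw : 0 < w.im) :
    D ((a * w + b) / (c * w + d)) = (c * w + d) ^ 12 * D w := by
  obtain ⟨z, hz⟩ : ∃ z : ℍ, z = ⟨w, hw⟩ := ⟨_, rfl⟩
  have hzw : (z : ℂ) = w := by rw [hz]
  obtain ⟨γ, hγ⟩ : ∃ γ : SL(2, ℤ), γ = ⟨!![a, b; c, d], by rw [Matrix.det_fin_two_of]; linarith⟩ := ⟨_, rfl⟩
  have h1 := coe_specialLinearGroup_apply γ z
  have h2 : ((γ • z : ℍ) : ℂ) = (a * w + b) / (c * w + d) := by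
    rw [h1, hγ, hzw]
    simp
  have h3' : denom γ z = (((c : ℤ) : ℝ) : ℂ) * w + (((d : ℤ) : ℝ) : ℂ) := by
    rw [hγ, ← hzw]; rfl
  have h3 : denom γ z = c * w + d := by
    rw [h3']; push_cast; rfl
  have h4 := D_inv γ z
  rw [← D_of, h2, h3, ← D_of, hzw] at h4
  exact_mod_cast h4

theorem D_diff : DifferentiableOn ℂ D {z | 0 < z.im} := by
  have := UpperHalfPlane.mdifferentiable_iff.mp (CuspForm.discriminant.holo')
  exact this

theorem D_sum (w : ℂ) (hw : 0 < w.im) :
    HasSum (fun m : ℕ => (qExpansion 1 (ModularForm.discriminant : ℍ → ℂ)).coeff m *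
      Complex.exp (2 * Real.pi * Complex.I * w) ^ m) (D w) := by
  have h := ModularForm.hasSum_qExpansion (CuspForm.discriminant) (h := 1) one_pos
    one_mem_strictPeriods_SL ⟨w, hw⟩
  have h2 : D w = CuspForm.discriminant (⟨w, hw⟩ : ℍ) := D_of ⟨w, hw⟩
  rw [h2]
  simpa [Function.Periodic.qParam] using h

/-- the Hecke operator -/
noncomputable def F (p : ℕ) (w : ℂ) : ℂ :=
  1 / p * ∑ b ∈ Finset.range p, D ((w + b) / p) + p ^ 11 * D (p * w)

theorem F_add_one (p : ℕ) (hp : 0 < p) (w : ℂ) : F p (w + 1) = F p w := by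
  have hp0 : (p : ℂ) ≠ 0 := by exact_mod_cast hp.ne'
  have h1 : ∑ b ∈ Finset.range p, D ((w + 1 + b) / p) = ∑ b ∈ Finset.range p, D ((w + b) / p) := by
    have e1 := Finset.sum_range_succ (fun b : ℕ => D ((w + b) / p)) p
    have e2 := Finset.sum_range_succ' (fun b : ℕ => D ((w + b) / p)) p
    have e3 : D ((w + p) / p) = D (w / p) := by
      rw [add_div, div_self hp0]
      exact D_per _
    have e4 : D ((w + ((0 : ℕ) : ℂ)) / p) = D (w / p) := by simp
    have e5 : ∀ b : ℕ, D ((w + ((b + 1 : ℕ) : ℂ)) / p) = D ((w + 1 + b) / p) := fun b => by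
      congr 2
      push_cast
      ring
    simp only [e5] at e2
    rw [e3] at e1
    rw [e4] at e2
    have := e1.symm.trans e2
    exact (add_right_cancel this).symm
  have h2 : D (p * (w + 1)) = D (p * w) := by
    rw [mul_add, mul_one, D_add_nat]
  unfold F
  rw [h1, h2]

theorem D_S (w : ℂ) (hw : 0 < w.im) : D ((-w)⁻¹) = w ^ 12 * D w := by
  have h := D_tr 0 (-1) 1 0 (by norm_num) w hw
  have e1 : (((0 : ℤ) : ℂ) * w + ((-1 : ℤ) : ℂ)) / (((1 : ℤ) : ℂ) * w + ((0 : ℤ) : ℂ)) = (-w)⁻¹ := by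
    push_cast
    rw [zero_mul, zero_add, one_mul, add_zero, inv_neg, neg_div, one_div]
  rw [e1] at h
  rw [h]
  push_cast
  ring_nf

/-- the involution -/
noncomputable def iv (p : ℕ) (b : ℕ) : ℕ := (-((b : ZMod p))⁻¹).val

theorem iv_spec (p : ℕ) (hp : p.Prime) (b : ℕ) (hb : b ∈ Finset.Ico 1 p) :
    iv p b ∈ Finset.Ico 1 p ∧ iv p (iv p b) = b ∧ (p : ℤ) ∣ 1 + b * iv p b := by
  have : Fact p.Prime := ⟨hp⟩
  rw [Finset.mem_Ico] at hb
  have hb0 : (b : ZMod p) ≠ 0 := by
    intro h
    rw [ZMod.natCast_eq_zero_iff] at h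
    exact absurd (Nat.le_of_dvd (by omega) h) (by omega)
  have hval : ((iv p b : ℕ) : ZMod p) = -((b : ZMod p))⁻¹ := by
    unfold iv
    rw [ZMod.natCast_val, ZMod.cast_id]
  refine ⟨?_, ?_, ?_⟩
  · rw [Finset.mem_Ico]
    refine ⟨?_, ZMod.val_lt _⟩
    rw [Nat.one_le_iff_ne_zero]
    intro h
    have : (-((b : ZMod p))⁻¹) = 0 := (ZMod.val_eq_zero _).1 h
    exact inv_ne_zero hb0 (neg_eq_zero.1 this)
  · have h1 : iv p (iv p b) = (-(-((b : ZMod p))⁻¹)⁻¹).val := by
      conv_lhs => rw [iv, hval]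
    rw [h1, inv_neg, neg_neg, inv_inv, ZMod.val_natCast, Nat.mod_eq_of_lt hb.2]
  · have h2 : ((1 + b * iv p b : ℤ) : ZMod p) = 0 := by
      push_cast
      rw [hval]
      field_simp
      ring
    exact (ZMod.intCast_zmod_eq_zero_iff_dvd _ _).1 h2

theorem D_b (p : ℕ) (hp : p.Prime) (b : ℕ) (hb : b ∈ Finset.Ico 1 p) (w : ℂ) (hw : 0 < w.im) :
    D (((-w)⁻¹ + b) / p) = w ^ 12 * D ((w + iv p b) / p) := by
  obtain ⟨-, -, k, hk⟩ := iv_spec p hp b hb
  have hp0 : (p : ℂ) ≠ 0 := by exact_mod_cast hp.ne_zero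
  have hpR : (0 : ℝ) < p := by exact_mod_cast hp.pos
  have hw0 : w ≠ 0 := by
    rintro rfl
    simp at hw
  have him : 0 < ((w + iv p b) / p : ℂ).im := by
    have : ((w + iv p b) / p : ℂ).im = w.im / p := by
      rw [Complex.div_natCast_im]
      simp
    rw [this]
    positivity
  have h := D_tr b (-k) p (-(iv p b)) (by linarith) ((w + iv p b) / p) him
  have hkC : (1 : ℂ) + b * iv p b = p * k := by exact_mod_cast hk
  have e1 : (((p : ℤ) : ℂ) * ((w + iv p b) / p) + ((-(iv p b : ℤ) : ℤ) : ℂ)) = w := by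
    push_cast
    field_simp
    ring
  have e2 : (((b : ℤ) : ℂ) * ((w + iv p b) / p) + ((-k : ℤ) : ℂ)) / w = ((-w)⁻¹ + b) / p := by
    push_cast
    rw [inv_neg]
    field_simp
    linear_combination hkC
  rw [e1, e2] at h
  exact h

theorem F_S (p : ℕ) (hp : p.Prime) (w : ℂ) (hw : 0 < w.im) : F p ((-w)⁻¹) = w ^ 12 * F p w := by
  have hp0 : (p : ℂ) ≠ 0 := by exact_mod_cast hp.ne_zero
  have hpR : (0 : ℝ) < p := by exact_mod_cast hp.pos
  have hw0 : w ≠ 0 := by
    rintro rfl
    simp at hw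
  have hr : Finset.range p = insert 0 (Finset.Ico 1 p) := by
    ext i
    simp only [Finset.mem_range, Finset.mem_insert, Finset.mem_Ico]
    have := hp.pos
    omega
  have h0 : (0 : ℕ) ∉ Finset.Ico 1 p := by simp
  have hs : ∑ b ∈ Finset.Ico 1 p, D (((-w)⁻¹ + b) / p) = w ^ 12 * ∑ b ∈ Finset.Ico 1 p, D ((w + b) / p) := by
    rw [Finset.mul_sum]
    refine Finset.sum_nbij' (iv p) (iv p) (fun b hb => (iv_spec p hp b hb).1)
      (fun b hb => (iv_spec p hp b hb).1) (fun b hb => (iv_spec p hp b hb).2.1)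
      (fun b hb => (iv_spec p hp b hb).2.1) (fun b hb => D_b p hp b hb w hw)
  have h1 : D (((-w)⁻¹ + ((0 : ℕ) : ℂ)) / p) = (p * w) ^ 12 * D (p * w) := by
    rw [← D_S (p * w) (by rw [← Complex.ofReal_natCast, Complex.im_ofReal_mul]; positivity)]
    congr 1
    push_cast
    field_simp
    ring
  have h2 : D (p * (-w)⁻¹) = (w / p) ^ 12 * D (w / p) := by
    rw [← D_S (w / p) (by rw [Complex.div_natCast_im]; positivity)]
    congr 1
    field_simp
  unfold F
  rw [hr, Finset.sum_insert h0, Finset.sum_insert h0, hs, h1, h2]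
  push_cast
  rw [add_zero]
  field_simp
  ring

theorem F_diff (p : ℕ) (hp : 0 < p) : DifferentiableOn ℂ (F p) {z | 0 < z.im} := by
  have hpR : (0 : ℝ) < p := by exact_mod_cast hp
  unfold F
  refine DifferentiableOn.add ?_ ?_
  · refine (DifferentiableOn.fun_sum fun b _ => ?_).const_mul _
    refine D_diff.comp (by fun_prop) ?_
    intro z hz
    show 0 < ((z + b) / p : ℂ).im
    rw [Complex.div_natCast_im]
    have : (z + b : ℂ).im = z.im := by simp
    rw [this]
    exact div_pos hz hpR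
  · refine (D_diff.comp (by fun_prop) ?_).const_mul _
    intro z hz
    show 0 < (p * z : ℂ).im
    rw [← Complex.ofReal_natCast, Complex.im_ofReal_mul]
    exact mul_pos hpR hz

/-- the Hecke operator on the upper half plane -/
noncomputable def Fh (p : ℕ) (z : ℍ) : ℂ := F p z

theorem D_tendsto (g : ℍ → ℂ) (hg : Tendsto (fun z => (g z).im) atImInfty atTop) :
    Tendsto (fun z => D (g z)) atImInfty (𝓝 0) := by
  have h1 : Tendsto (fun z => ofComplex (g z)) atImInfty atImInfty := by
    refine tendsto_comap_iff.2 ?_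
    refine hg.congr' ?_
    filter_upwards [hg.eventually_gt_atTop 0] with z hz
    show (g z).im = (ofComplex (g z)).im
    rw [ofComplex_apply_of_im_pos hz]
    rfl
  exact (discriminant_isZeroAtImInfty : Tendsto _ _ _).comp h1

theorem Fh_zero (p : ℕ) (hp : 0 < p) : IsZeroAtImInfty (Fh p) := by
  have hpR : (0 : ℝ) < p := by exact_mod_cast hp
  have him : Tendsto (fun z : ℍ => z.im) atImInfty atTop := tendsto_comap
  have h1 : ∀ b : ℕ, Tendsto (fun z : ℍ => D (((z : ℂ) + b) / p)) atImInfty (𝓝 0) := fun b => by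
    refine D_tendsto _ ?_
    have e : ∀ z : ℍ, (((z : ℂ) + b) / p).im = z.im / p := fun z => by
      rw [Complex.div_natCast_im]
      simp
    simp only [e]
    exact him.atTop_div_const hpR
  have h2 : Tendsto (fun z : ℍ => D (p * (z : ℂ))) atImInfty (𝓝 0) := by
    refine D_tendsto _ ?_
    have e : ∀ z : ℍ, (p * (z : ℂ)).im = p * z.im := fun z => by
      rw [← Complex.ofReal_natCast, Complex.im_ofReal_mul]
      rfl
    simp only [e]
    exact him.const_mul_atTop hpR
  have h3 : Tendsto (fun z : ℍ => 1 / (p : ℂ) * ∑ b ∈ Finset.range p, D (((z : ℂ) + b) / p) +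
      p ^ 11 * D (p * (z : ℂ))) atImInfty (𝓝 (1 / (p : ℂ) * ∑ b ∈ Finset.range p, (0 : ℂ) + p ^ 11 * 0)) :=
    ((tendsto_finsetSum _ fun b _ => h1 b).const_mul _).add (h2.const_mul _)
  have e : (1 / (p : ℂ) * ∑ b ∈ Finset.range p, (0 : ℂ) + p ^ 11 * 0) = 0 := by simp
  rw [e] at h3
  exact h3

theorem Fh_S (p : ℕ) (hp : p.Prime) : (Fh p) ∣[(12 : ℤ)] ModularGroup.S = Fh p := by
  ext z
  rw [SL_slash_apply, modular_S_smul, ModularGroup.denom_S]
  show F p ((-(z : ℂ))⁻¹) * (z : ℂ) ^ (-(12 : ℤ)) = F p z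
  rw [F_S p hp z z.im_pos, zpow_neg]
  have : (z : ℂ) ≠ 0 := z.ne_zero
  have h2 : (z : ℂ) ^ (12 : ℤ) = (z : ℂ) ^ 12 := by norm_cast
  rw [h2]
  field_simp

theorem Fh_T (p : ℕ) (hp : 0 < p) : (Fh p) ∣[(12 : ℤ)] ModularGroup.T = Fh p := by
  ext z
  rw [SL_slash_apply, modular_T_smul]
  have h1' : denom ModularGroup.T z = (((0 : ℤ) : ℝ) : ℂ) * z + (((1 : ℤ) : ℝ) : ℂ) := rfl
  have h1 : denom ModularGroup.T z = 1 := by
    rw [h1']; push_cast; ring
  rw [h1, one_zpow, mul_one]
  show F p (((1 : ℝ) +ᵥ z : ℍ) : ℂ) = F p z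
  rw [coe_vadd, add_comm, Complex.ofReal_one, F_add_one p hp]

/-- the Hecke image of the discriminant as a cusp form -/
noncomputable def FC (p : ℕ) (hp : p.Prime) : CuspForm 𝒮ℒ 12 where
  toFun := Fh p
  slash_action_eq' A hA := by
    obtain ⟨A, rfl⟩ := hA
    exact SlashInvariantForm.slash_action_generators_SL2Z (Fh_S p hp) (Fh_T p hp.pos) A
  holo' := by
    rw [UpperHalfPlane.mdifferentiable_iff]
    refine (F_diff p hp.pos).congr fun z hz => ?_
    show Fh p (ofComplex z) = F p z
    unfold Fh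
    rw [ofComplex_apply_of_im_pos hz]
  zero_at_cusps' hc := by
    rw [Subgroup.IsArithmetic.isCusp_iff_isCusp_SL2Z] at hc
    rw [OnePoint.isZeroAt_iff_forall_SL2Z hc]
    intro γ _
    rw [SlashInvariantForm.slash_action_generators_SL2Z (Fh_S p hp) (Fh_T p hp.pos)]
    exact Fh_zero p hp.pos

/-- the coefficients -/
noncomputable def tau (n : ℕ) : ℂ := (qExpansion 1 (ModularForm.discriminant : ℍ → ℂ)).coeff n

theorem geom (p : ℕ) (hp : p.Prime) (m : ℕ) :
    ∑ b ∈ Finset.range p, (Complex.exp (2 * Real.pi * Complex.I / p) ^ m) ^ b = if p ∣ m then (p : ℂ) else 0 := by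
  have hprim := Complex.isPrimitiveRoot_exp p hp.ne_zero
  split_ifs with h
  · have h1 : Complex.exp (2 * Real.pi * Complex.I / p) ^ m = 1 := (hprim.pow_eq_one_iff_dvd m).2 h
    rw [h1]
    simp
  · have h1 : Complex.exp (2 * Real.pi * Complex.I / p) ^ m ≠ 1 := fun hh =>
      h ((hprim.pow_eq_one_iff_dvd m).1 hh)
    have h2 := mul_geom_sum (Complex.exp (2 * Real.pi * Complex.I / p) ^ m) p
    rw [← pow_mul, mul_comm m p, pow_mul, hprim.pow_eq_one, one_pow, sub_self] at h2
    exact (mul_eq_zero.1 h2).resolve_left (sub_ne_zero.2 h1)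

theorem sumA (p : ℕ) (hp : p.Prime) (w : ℂ) (hw : 0 < w.im) :
    HasSum (fun n : ℕ => tau (p * n) * Complex.exp (2 * Real.pi * Complex.I * w) ^ n)
      (1 / p * ∑ b ∈ Finset.range p, D ((w + b) / p)) := by
  have hp0 : (p : ℂ) ≠ 0 := by exact_mod_cast hp.ne_zero
  have hpR : (0 : ℝ) < p := by exact_mod_cast hp.pos
  obtain ⟨u, hu⟩ : ∃ u, u = Complex.exp (2 * Real.pi * Complex.I * (w / p)) := ⟨_, rfl⟩
  have hup : u ^ p = Complex.exp (2 * Real.pi * Complex.I * w) := by
    rw [hu, ← Complex.exp_nat_mul]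
    congr 1
    field_simp
  have h1 : ∀ b ∈ Finset.range p, HasSum (fun m : ℕ => tau m * u ^ m *
      (Complex.exp (2 * Real.pi * Complex.I / p) ^ m) ^ b) (D ((w + b) / p)) := by
    intro b _
    have him : 0 < ((w + b) / p : ℂ).im := by
      have : ((w + b) / p : ℂ).im = w.im / p := by
        rw [Complex.div_natCast_im]
        simp
      rw [this]
      positivity
    refine (D_sum _ him).congr_fun ?_
    intro m
    have e : Complex.exp (2 * Real.pi * Complex.I * ((w + b) / p)) =
        u * Complex.exp (2 * Real.pi * Complex.I / p) ^ b := by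
      rw [hu, ← Complex.exp_nat_mul, ← Complex.exp_add]
      congr 1
      field_simp
    rw [e, mul_pow]
    unfold tau
    rw [← pow_mul, ← pow_mul, mul_comm b m]
    ring
  have h2 := hasSum_sum h1
  have h3 : HasSum (fun m : ℕ => if p ∣ m then (p : ℂ) * (tau m * u ^ m) else 0)
      (∑ b ∈ Finset.range p, D ((w + b) / p)) := by
    refine h2.congr_fun ?_
    intro m
    rw [← Finset.mul_sum, geom p hp m]
    split_ifs <;> ring
  have hinj : Function.Injective (fun n : ℕ => p * n) := fun a b hab =>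
    Nat.eq_of_mul_eq_mul_left hp.pos hab
  have h4 : HasSum ((fun m : ℕ => if p ∣ m then (p : ℂ) * (tau m * u ^ m) else 0) ∘ (fun n : ℕ => p * n))
      (∑ b ∈ Finset.range p, D ((w + b) / p)) := by
    rw [hinj.hasSum_iff]
    · exact h3
    · intro m hm
      have : ¬ p ∣ m := fun ⟨k, hk⟩ => hm ⟨k, hk.symm⟩
      simp [this]
  refine (h4.mul_left (1 / (p : ℂ))).congr_fun ?_
  intro n
  simp only [Function.comp_apply, dvd_mul_right, if_true]
  rw [pow_mul, hup]
  field_simp

theorem sumB (p : ℕ) (hp : p.Prime) (w : ℂ) (hw : 0 < w.im) :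
    HasSum (fun n : ℕ => (if p ∣ n then (p : ℂ) ^ 11 * tau (n / p) else 0) *
      Complex.exp (2 * Real.pi * Complex.I * w) ^ n) (p ^ 11 * D (p * w)) := by
  have hpR : (0 : ℝ) < p := by exact_mod_cast hp.pos
  have him : 0 < (p * w : ℂ).im := by
    rw [← Complex.ofReal_natCast, Complex.im_ofReal_mul]
    positivity
  have hinj : Function.Injective (fun n : ℕ => p * n) := fun a b hab =>
    Nat.eq_of_mul_eq_mul_left hp.pos hab
  rw [← hinj.hasSum_iff]
  · refine ((D_sum _ him).mul_left ((p : ℂ) ^ 11)).congr_fun ?_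
    intro n
    simp only [Function.comp_apply, dvd_mul_right, if_true]
    rw [Nat.mul_div_cancel_left _ hp.pos, ← Complex.exp_nat_mul, ← Complex.exp_nat_mul]
    have : ((p * n : ℕ) : ℂ) * (2 * Real.pi * Complex.I * w) = n * (2 * Real.pi * Complex.I * (p * w)) := by
      push_cast
      ring
    rw [this]
    unfold tau
    ring
  · intro m hm
    have : ¬ p ∣ m := fun ⟨k, hk⟩ => hm ⟨k, hk.symm⟩
    simp [this]

theorem main (p : ℕ) (hp : p.Prime) : ∃ c : ℂ, ∀ n : ℕ,
    tau (p * n) + (if p ∣ n then (p : ℂ) ^ 11 * tau (n / p) else 0) = c * tau n := by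
  obtain ⟨c, hc⟩ := CuspForm.exists_smul_discriminant_of_weight_eq_twelve (FC p hp)
  refine ⟨c, fun n => ?_⟩
  have hF : ∀ z : ℍ, (FC p hp) z = F p z := fun z => rfl
  have h1 : ∀ z : ℍ, HasSum (fun m : ℕ => (tau (p * m) + (if p ∣ m then (p : ℂ) ^ 11 * tau (m / p) else 0)) •
      Function.Periodic.qParam 1 (z : ℂ) ^ m) ((FC p hp) z) := by
    intro z
    rw [hF]
    refine ((sumA p hp z z.im_pos).add (sumB p hp z z.im_pos)).congr_fun ?_
    intro m
    simp only [Function.Periodic.qParam, smul_eq_mul, Complex.ofReal_one, div_one]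
    ring
  have h2 : ∀ z : ℍ, HasSum (fun m : ℕ => (c * tau m) • Function.Periodic.qParam 1 (z : ℂ) ^ m)
      ((FC p hp) z) := by
    intro z
    have : (FC p hp) z = c * D z := by
      rw [← hc, D_of]; rfl
    rw [this]
    refine ((D_sum z z.im_pos).mul_left c).congr_fun ?_
    intro m
    simp only [Function.Periodic.qParam, smul_eq_mul, Complex.ofReal_one, div_one, tau]
    ring
  have k1 := ModularFormClass.qExpansion_coeff_unique (h := 1) one_pos one_mem_strictPeriods_SL h1 n
  have k2 := ModularFormClass.qExpansion_coeff_unique (h := 1) one_pos one_mem_strictPeriods_SL h2 n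
  rw [k1, k2]

end HecP

theorem t_HEC : S_HEC := by
  have h1 := ModularForm.discriminant_qExpansion_coeff_one
  refine ⟨?_, h1, fun p hp n hn => ?_⟩
  · have := CuspFormClass.qExpansion_coeff_zero (CuspForm.discriminant) (h := 1) one_pos
      one_mem_strictPeriods_SL
    exact this
  · obtain ⟨c, hc⟩ := HecP.main p hp
    have h2 := hc 1
    have h3 : ¬ p ∣ 1 := fun h => hp.one_lt.ne' (Nat.dvd_one.1 h)
    rw [if_neg h3, mul_one, add_zero] at h2
    have h4 : HecP.tau 1 = 1 := h1
    rw [h4, mul_one] at h2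
    show HecP.tau p * HecP.tau n = HecP.tau (p * n) + if p ∣ n then (p : ℂ) ^ 11 * HecP.tau (n / p) else 0
    rw [hc n, h2]

end Pool.Agent.H757D
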