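import Pool.Agent.H757D.Stm

/-!
# D17 (MULC), (EX)
-/

set_option autoImplicit false

namespace Pool.Agent.H757D

open UpperHalfPlane ModularForm
open scoped MatrixGroups

open DirichletCharacter in
lemma mc_chg {n m : ℕ} (h : n ∣ m) (χ : DirichletCharacter ℂ n) : changeLevel h χ (-1) = χ (-1) := by
  have hc : IsCoprime (-1 : ℤ) (m : ℤ) := isCoprime_one_left.neg_left
  have := changeLevel_eq_cast_of_dvd' χ h hc
  simpa using this

open DirichletCharacter in
theorem t_MULC : S_MULC := by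
  intro N M χ ψ hχ hψ ho he
  obtain ⟨hN, hχp, hχo⟩ := hχ
  obtain ⟨hM, hψp, hψo⟩ := hψ
  have : NeZero (N.lcm M) := ⟨(Nat.lcm_pos hN hM).ne'⟩
  set θ : DirichletCharacter ℂ (N.lcm M) := χ.mul ψ with hθ
  have hθd : θ = changeLevel (Nat.dvd_lcm_left N M) χ * changeLevel (Nat.dvd_lcm_right N M) ψ := rfl
  have h2 : θ ^ 2 = 1 := by
    rw [hθd, mul_pow, ← map_pow, ← map_pow]
    have e1 : χ ^ 2 = 1 := by rw [← hχo]; exact pow_orderOf_eq_one χ
    have e2 : ψ ^ 2 = 1 := by rw [← hψo]; exact pow_orderOf_eq_one ψ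
    rw [e1, e2, map_one, map_one, one_mul]
  have hm : θ (-1) = -1 := by
    rw [hθd, MulChar.mul_apply, mc_chg, mc_chg, ho, he, mul_one]
  have hlev : changeLevel θ.conductor_dvd_level θ.primitiveCharacter = θ :=
    changeLevel_primitiveCharacter θ
  have hp2 : θ.primitiveCharacter ^ 2 = 1 := by
    apply changeLevel_injective (R := ℂ) θ.conductor_dvd_level
    rw [map_pow, hlev, h2, map_one]
  have hpm : θ.primitiveCharacter (-1) = -1 := by
    rw [← mc_chg θ.conductor_dvd_level, hlev, hm]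
  have hp1 : θ.primitiveCharacter ≠ 1 := by
    intro h
    rw [h] at hpm
    rw [MulChar.one_apply isUnit_one.neg] at hpm
    norm_num at hpm
  exact ⟨⟨Nat.pos_of_ne_zero (conductor_ne_zero θ), primitiveCharacter_isPrimitive θ,
    orderOf_eq_prime hp2 hp1⟩, hpm⟩

open DirichletCharacter in
theorem t_EX : S_EX := by
  let χ : DirichletCharacter ℂ 4 := (ZMod.χ₄).ringHomComp (Int.castRingHom ℂ)
  have hm : χ (-1) = -1 := by
    have h : ZMod.χ₄ (-1) = -1 := by decide
    simp only [χ, MulChar.ringHomComp_apply, h]; simp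
  have h2 : χ ^ 2 = 1 := by
    ext u
    rw [MulChar.pow_apply_coe, MulChar.one_apply_coe]
    have h : ∀ a : ZMod 4, IsUnit a → a = 1 ∨ a = -1 := by decide
    rcases h u u.isUnit with h | h <;> rw [h]
    · simp
    · rw [hm]; norm_num
  have h1 : χ ≠ 1 := by
    intro h
    rw [h, MulChar.one_apply isUnit_one.neg] at hm
    norm_num at hm
  refine ⟨χ, ⟨by norm_num, ?_, orderOf_eq_prime h2 h1⟩, hm⟩
  rw [isPrimitive_def]
  have hd : χ.conductor ∣ 4 := χ.conductor_dvd_level
  have hc1 : χ.conductor ≠ 1 := fun h => h1 ((eq_one_iff_conductor_eq_one (χ := χ)).2 h)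
  have hc2 : χ.conductor ≠ 2 := by
    intro h
    have hf : FactorsThrough χ 2 := by
      have := factorsThrough_conductor χ
      rwa [h] at this
    rw [factorsThrough_iff_ker_unitsMap (show 2 ∣ 4 by norm_num)] at hf
    have hk : (-1 : (ZMod 4)ˣ) ∈ (ZMod.unitsMap (show 2 ∣ 4 by norm_num)).ker := by
      rw [MonoidHom.mem_ker]
      exact Subsingleton.elim (α := (ZMod 2)ˣ) _ _
    have h3 := hf hk
    rw [MonoidHom.mem_ker] at h3
    have h4 := congrArg Units.val h3
    rw [MulChar.coe_toUnitHom] at h4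
    rw [Units.val_neg, Units.val_one, hm] at h4
    norm_num at h4
  have hle : χ.conductor ≤ 4 := Nat.le_of_dvd (by norm_num) hd
  have h0 : χ.conductor ≠ 0 := conductor_ne_zero χ
  interval_cases hh : χ.conductor
  all_goals omega

end Pool.Agent.H757D
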