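import Mathlib

/-!
# Project D17: the product of the central values of two quadratic twists of the discriminant form

Statements of the parts.
-/

set_option autoImplicit false

namespace Pool.Agent.H757D

open UpperHalfPlane ModularForm

open scoped MatrixGroups

noncomputable section

/-- a quadratic character: primitive of order two, modulus `M > 0` -/
def IsQuad {M : ℕ} (χ : DirichletCharacter ℂ M) : Prop := 0 < M ∧ χ.IsPrimitive ∧ orderOf χ = 2

/-- D1 (TWK): the twists of a cusp form of level one by a primitive quadratic (or trivial) character -/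
def S_TWK : Prop := ∀ (k : ℕ), 0 < k → ∀ (f : CuspForm 𝒮ℒ (k : ℤ)) (M : ℕ) (χ : DirichletCharacter ℂ M),
  0 < M → χ.IsPrimitive → χ ^ 2 = 1 → ∃ L : ℂ → ℂ, Differentiable ℂ L ∧
    (∀ s : ℂ, (k : ℝ) / 2 + 1 < s.re →
      HasSum (fun n : ℕ => (qExpansion 1 f).coeff n * χ n * (n : ℂ) ^ (-s)) (L s)) ∧
    (Complex.I ^ k * χ (-1) = -1 → L (k / 2) = 0)

/-- D2 (HEC): the coefficients of the discriminant form -/
def S_HEC : Prop := (qExpansion 1 (ModularForm.discriminant : ℍ → ℂ)).coeff 0 = 0 ∧
  (qExpansion 1 (ModularForm.discriminant : ℍ → ℂ)).coeff 1 = 1 ∧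
  ∀ p : ℕ, p.Prime → ∀ n : ℕ, 0 < n →
    (qExpansion 1 (ModularForm.discriminant : ℍ → ℂ)).coeff p *
      (qExpansion 1 (ModularForm.discriminant : ℍ → ℂ)).coeff n =
    (qExpansion 1 (ModularForm.discriminant : ℍ → ℂ)).coeff (p * n) +
      if p ∣ n then (p : ℂ) ^ 11 * (qExpansion 1 (ModularForm.discriminant : ℍ → ℂ)).coeff (n / p)
      else 0

/-- D3 (MULC): the primitive character which induces the product of an odd and an even quadratic
character is an odd quadratic character -/
def S_MULC : Prop := ∀ (N M : ℕ) (χ : DirichletCharacter ℂ N) (ψ : DirichletCharacter ℂ M),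
  IsQuad χ → IsQuad ψ → χ.Odd → ψ.Even →
    IsQuad (χ.mul ψ).primitiveCharacter ∧ (χ.mul ψ).primitiveCharacter.Odd

/-- D3 (EX): the character modulo four -/
def S_EX : Prop := ∃ χ : DirichletCharacter ℂ 4, IsQuad χ ∧ χ.Odd

end

end Pool.Agent.H757D
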