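import Pool.Agent.H757D.Stm

set_option autoImplicit false

namespace Pool.Agent.H757D

open UpperHalfPlane hiding I
open ModularForm
open scoped MatrixGroups Real
open Filter Complex Asymptotics

noncomputable section

/-- the sum over units -/
lemma tw_sum_units {M : ℕ} [NeZero M] (χ : DirichletCharacter ℂ M) (F : ZMod M → ℂ) :
    ∑ u : ZMod M, χ u * F u = ∑ u : (ZMod M)ˣ, χ (u : ZMod M) * F (u : ZMod M) := by
  classical
  rw [← Finset.sum_subset (Finset.subset_univ (Finset.univ.map ⟨Units.val, Units.val_injective⟩))]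
  · rw [Finset.sum_map]
    rfl
  · intro x _ hx
    rw [MulChar.map_nonunit, zero_mul]
    intro hu
    apply hx
    simp only [Finset.mem_map, Finset.mem_univ, true_and, Function.Embedding.coeFn_mk]
    exact ⟨hu.unit, rfl⟩

/-- the involution `u ↦ -u⁻¹` -/
lemma tw_reflect {M : ℕ} [NeZero M] (χ : DirichletCharacter ℂ M) (hχ : χ ^ 2 = 1)
    (F G : ZMod M → ℂ) (c : ℂ) (h : ∀ u : (ZMod M)ˣ, F (u : ZMod M) = c * G ((-u⁻¹ : (ZMod M)ˣ) : ZMod M)) :
    ∑ u : ZMod M, χ u * F u = χ (-1) * c * ∑ u : ZMod M, χ u * G u := by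
  rw [tw_sum_units, tw_sum_units, Finset.mul_sum]
  let e : (ZMod M)ˣ ≃ (ZMod M)ˣ :=
    { toFun := fun u => -u⁻¹
      invFun := fun u => -u⁻¹
      left_inv := fun u => by simp
      right_inv := fun u => by simp }
  rw [← Equiv.sum_comp e]
  refine Finset.sum_congr rfl fun u _ => ?_
  have h1 : χ (u : ZMod M) * χ (u : ZMod M) = 1 := by
    have := congrArg (fun ψ : DirichletCharacter ℂ M => ψ (u : ZMod M)) hχ
    simpa [sq, MulChar.mul_apply] using this
  have h2 : χ ((e u : (ZMod M)ˣ) : ZMod M) * χ (u : ZMod M) = χ (-1) := by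
    rw [← map_mul]
    congr 1
    simp [e]
  have h4 : χ (-1) * χ (-1) = 1 := by rw [← map_mul]; simp
  have h3 : χ (-1) * χ ((e u : (ZMod M)ˣ) : ZMod M) = χ (u : ZMod M) := by
    have : χ (-1) * χ ((e u : (ZMod M)ˣ) : ZMod M) * (χ (u : ZMod M) * χ (u : ZMod M)) =
      χ (-1) * (χ ((e u : (ZMod M)ˣ) : ZMod M) * χ (u : ZMod M)) * χ (u : ZMod M) := by ring
    rw [h1, h2, h4] at this
    simpa using this
  have h5 : F ((e u : (ZMod M)ˣ) : ZMod M) = c * G (u : ZMod M) := by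
    rw [h (e u)]
    simp [e]
  have h6 : χ ((e u : (ZMod M)ˣ) : ZMod M) = χ (-1) * χ (u : ZMod M) := by
    rw [← h3, ← mul_assoc, h4, one_mul]
  rw [h5, h6]
  ring

/-- transformation of a cusp form of level one -/
lemma tw_gamma {k : ℕ} (f : CuspForm 𝒮ℒ (k : ℤ)) (M : ℕ) (hM : 0 < M) (a b : ℤ)
    (hab : (M : ℤ) ∣ a * b + 1) (y : ℝ) (hy : 0 < y) :
    f (ofComplex ((a : ℂ) / M + I * ((1 / y : ℝ) : ℂ) / M)) =
      (I * y) ^ k * f (ofComplex ((b : ℂ) / M + I * y / M)) := by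
  obtain ⟨c, hc⟩ := hab
  have hM' : (0 : ℝ) < M := by exact_mod_cast hM
  have hMC : (M : ℂ) ≠ 0 := by exact_mod_cast hM.ne'
  have hyC : (y : ℂ) ≠ 0 := by exact_mod_cast hy.ne'
  let γ : SL(2, ℤ) := ⟨!![a, -c; (M : ℤ), -b], by
    rw [Matrix.det_fin_two_of]; linarith⟩
  have him : 0 < ((b : ℂ) / M + I * y / M).im := by
    have : ((b : ℂ) / M + I * y / M).im = y / M := by
      rw [show ((b : ℂ) / M + I * y / M) = ((b / M : ℝ) : ℂ) + ((y / M : ℝ) : ℂ) * I by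
        push_cast; ring]
      simp
    rw [this]; positivity
  have him2 : 0 < ((a : ℂ) / M + I * ((1 / y : ℝ) : ℂ) / M).im := by
    have : ((a : ℂ) / M + I * ((1 / y : ℝ) : ℂ) / M).im = 1 / y / M := by
      rw [show ((a : ℂ) / M + I * ((1 / y : ℝ) : ℂ) / M) =
        ((a / M : ℝ) : ℂ) + (((1 / y) / M : ℝ) : ℂ) * I by push_cast; ring]
      simp
    rw [this]; positivity
  rw [ofComplex_apply_of_im_pos him, ofComplex_apply_of_im_pos him2]
  set τ : ℍ := ⟨(b : ℂ) / M + I * y / M, him⟩ with hτ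
  have hτc : (τ : ℂ) = (b : ℂ) / M + I * y / M := rfl
  have key := SlashInvariantForm.slash_action_eqn' (k := (k : ℤ)) (Γ := 𝒮ℒ) f
    (γ := (γ : GL (Fin 2) ℝ)) (by exact ⟨γ, rfl⟩) τ
  have e00 : ((γ : GL (Fin 2) ℝ) 0 0 : ℝ) = (a : ℝ) := rfl
  have e01 : ((γ : GL (Fin 2) ℝ) 0 1 : ℝ) = ((-c : ℤ) : ℝ) := rfl
  have e10 : ((γ : GL (Fin 2) ℝ) 1 0 : ℝ) = ((M : ℤ) : ℝ) := rfl
  have e11 : ((γ : GL (Fin 2) ℝ) 1 1 : ℝ) = ((-b : ℤ) : ℝ) := rfl
  have hd : (((γ : GL (Fin 2) ℝ) 1 0 : ℝ) : ℂ) * (τ : ℂ) + (((γ : GL (Fin 2) ℝ) 1 1 : ℝ) : ℂ) = I * y := by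
    rw [hτc, e10, e11]
    push_cast
    field_simp
    ring
  rw [hd] at key
  have hz : ((γ : GL (Fin 2) ℝ) • τ) = (⟨(a : ℂ) / M + I * ((1 / y : ℝ) : ℂ) / M, him2⟩ : ℍ) := by
    ext
    rw [UpperHalfPlane.coe_smul_of_det_pos (by simp)]
    simp only [num, denom]
    rw [hd, hτc, e00, e01]
    have hcC : (a : ℂ) * b + 1 = M * c := by exact_mod_cast hc
    have hII : I ^ 2 = -1 := I_sq
    have hI : I ≠ 0 := I_ne_zero
    push_cast
    field_simp
    linear_combination hcC - hII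
  rw [hz] at key
  simpa using key

lemma tw_im (r t : ℝ) : ((r : ℂ) + I * t).im = t := by simp

lemma tw_cont {k : ℕ} (f : CuspForm 𝒮ℒ (k : ℤ)) (r : ℝ) :
    ContinuousOn (fun t : ℝ => f (ofComplex ((r : ℂ) + I * t))) (Set.Ioi 0) := by
  have h1 : Continuous (f : ℍ → ℂ) := (ModularFormClass.holo f).continuous
  have h2 : ContinuousOn (f ∘ ofComplex) {z | 0 < z.im} :=
    (UpperHalfPlane.mdifferentiable_iff.mp (ModularFormClass.holo f)).continuousOn
  refine h2.comp (f := fun t : ℝ => (r : ℂ) + I * t) (by fun_prop) ?_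
  intro t ht
  simpa using ht

lemma tw_tend (r : ℝ) :
    Tendsto (fun t : ℝ ↦ ofComplex ((r : ℂ) + I * t)) atTop atImInfty := by
  rw [atImInfty, tendsto_comap_iff]
  refine tendsto_id.congr' ?_
  filter_upwards [eventually_gt_atTop 0] with t ht
  have : 0 < ((r : ℂ) + I * t).im := by simpa using ht
  simp [ofComplex_apply_of_im_pos this, ← coe_im]

lemma tw_decay {k : ℕ} (f : CuspForm 𝒮ℒ (k : ℤ)) (r p : ℝ) :
    (fun t : ℝ => f (ofComplex ((r : ℂ) + I * t))) =O[atTop] (fun t : ℝ => t ^ p) := by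
  obtain ⟨c, hc, hO⟩ := CuspFormClass.exp_decay_atImInfty' f
  refine (hO.comp_tendsto (tw_tend r)).trans ?_
  refine (EventuallyEq.isBigO ?_).trans (isLittleO_exp_neg_mul_rpow_atTop hc p).isBigO
  filter_upwards [eventually_gt_atTop 0] with t ht
  have : 0 < ((r : ℂ) + I * t).im := by simpa using ht
  simp [ofComplex_apply_of_im_pos this, ← coe_im]

lemma tw_hasSum {k : ℕ} (f : CuspForm 𝒮ℒ (k : ℤ)) (r t : ℝ) (ht : 0 < t) :
    HasSum (fun n : ℕ => (qExpansion 1 f).coeff n *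
      (cexp (2 * π * I * (n * r)) * ((rexp (-(2 * π * n) * t) : ℝ) : ℂ))) (f (ofComplex ((r : ℂ) + I * t))) := by
  have h1 := ModularForm.hasSum_qExpansion f one_pos one_mem_strictPeriods_SL
    (ofComplex ((r : ℂ) + I * t))
  have h2 : 0 < ((r : ℂ) + I * t).im := by simpa using ht
  convert h1 using 2 with n
  congr 1
  rw [ofComplex_apply_of_im_pos h2]
  rw [Function.Periodic.qParam, ← Complex.exp_nat_mul, ofReal_exp, ← Complex.exp_add]
  congr 1
  push_cast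
  have hII : I ^ 2 = -1 := I_sq
  linear_combination (-2 * π * n * t) * hII

lemma tw_inv {M : ℕ} (χ : DirichletCharacter ℂ M) (hχ : χ ^ 2 = 1) : χ⁻¹ = χ := by
  rw [inv_eq_iff_mul_eq_one, ← sq, hχ]

lemma tw_gauss_ne {M : ℕ} [NeZero M] (χ : DirichletCharacter ℂ M) (hp : χ.IsPrimitive) :
    gaussSum χ ZMod.stdAddChar ≠ 0 := by
  intro h
  have h1 : ZMod.dft (χ : ZMod M → ℂ) = 0 := by
    funext k
    rw [DirichletCharacter.IsPrimitive.fourierTransform_eq_inv_mul_gaussSum hp, h]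
    simp
  have h2 : (χ : ZMod M → ℂ) = 0 := by
    have := congrArg ZMod.dft.symm h1
    simpa using this
  have h3 := congrFun h2 1
  simp at h3

lemma tw_gauss {M : ℕ} [NeZero M] (χ : DirichletCharacter ℂ M) (hp : χ.IsPrimitive)
    (hχ : χ ^ 2 = 1) (n : ℕ) :
    ∑ u : ZMod M, χ u * cexp (2 * π * I * (n * ((u.val : ℝ) / M : ℝ))) =
      χ n * gaussSum χ ZMod.stdAddChar := by
  have h := gaussSum_mulShift_of_isPrimitive (ZMod.stdAddChar (N := M)) hp (n : ZMod M)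
  rw [tw_inv χ hχ] at h
  rw [← h, gaussSum]
  refine Finset.sum_congr rfl fun u _ => ?_
  congr 1
  rw [AddChar.mulShift_apply]
  have : (n : ZMod M) * u = ((n * u.val : ℕ) : ZMod M) := by push_cast; simp
  rw [this]
  have h2 := ZMod.stdAddChar_coe (N := M) ((n * u.val : ℕ) : ℤ)
  rw [Int.cast_natCast] at h2
  rw [h2]
  congr 1
  push_cast
  ring

/-- the twisted sum on the imaginary axis -/
def twG {k : ℕ} (f : CuspForm 𝒮ℒ (k : ℤ)) {M : ℕ} [NeZero M] (χ : DirichletCharacter ℂ M) (t : ℝ) : ℂ :=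
  ∑ u : ZMod M, χ u * f (ofComplex ((((u.val : ℝ) / M : ℝ) : ℂ) + I * ((t / M : ℝ) : ℂ)))

lemma twG_feq {k : ℕ} (f : CuspForm 𝒮ℒ (k : ℤ)) {M : ℕ} [NeZero M] (χ : DirichletCharacter ℂ M)
    (hχ : χ ^ 2 = 1) (y : ℝ) (hy : 0 < y) :
    twG f χ (1 / y) = (χ (-1) * (I * y) ^ k) * twG f χ y := by
  have hM : 0 < M := Nat.pos_of_ne_zero (NeZero.ne M)
  refine tw_reflect χ hχ _ _ _ fun u => ?_
  have h := tw_gamma f M hM ((u : ZMod M).val : ℤ) (((-u⁻¹ : (ZMod M)ˣ) : ZMod M).val : ℤ) ?_ y hy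
  · have e1 : ((((u : ZMod M).val : ℝ) / M : ℝ) : ℂ) + I * ((1 / y / M : ℝ) : ℂ) =
        (((u : ZMod M).val : ℤ) : ℂ) / M + I * ((1 / y : ℝ) : ℂ) / M := by
      push_cast; ring
    have e2 : (((((-u⁻¹ : (ZMod M)ˣ) : ZMod M).val : ℝ) / M : ℝ) : ℂ) + I * ((y / M : ℝ) : ℂ) =
        ((((-u⁻¹ : (ZMod M)ˣ) : ZMod M).val : ℤ) : ℂ) / M + I * y / M := by
      push_cast; ring
    rw [e1, e2]
    exact h
  · rw [← ZMod.intCast_zmod_eq_zero_iff_dvd]
    push_cast
    rw [ZMod.natCast_zmod_val, ZMod.natCast_zmod_val]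
    simp

lemma twG_cont {k : ℕ} (f : CuspForm 𝒮ℒ (k : ℤ)) {M : ℕ} [NeZero M] (χ : DirichletCharacter ℂ M) :
    ContinuousOn (twG f χ) (Set.Ioi 0) := by
  have hM : (0 : ℝ) < M := by exact_mod_cast Nat.pos_of_ne_zero (NeZero.ne M)
  unfold twG
  refine continuousOn_finsetSum _ fun u _ => ContinuousOn.mul continuousOn_const ?_
  refine (tw_cont f ((u.val : ℝ) / M)).comp (f := fun t : ℝ => t / M) (by fun_prop) ?_
  intro t ht
  exact div_pos ht hM

lemma twG_decay {k : ℕ} (f : CuspForm 𝒮ℒ (k : ℤ)) {M : ℕ} [NeZero M] (χ : DirichletCharacter ℂ M)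
    (p : ℝ) : (twG f χ) =O[atTop] (fun t : ℝ => t ^ p) := by
  have hM : (0 : ℝ) < M := by exact_mod_cast Nat.pos_of_ne_zero (NeZero.ne M)
  unfold twG
  refine IsBigO.fun_sum fun u _ => IsBigO.const_mul_left ?_ _
  have h1 := (tw_decay f ((u.val : ℝ) / M) p).comp_tendsto (tendsto_id.atTop_div_const hM)
  refine h1.trans ?_
  refine IsBigO.of_bound ((M : ℝ) ^ (-p)) ?_
  filter_upwards [eventually_gt_atTop 0] with t ht
  simp only [Function.comp_apply, id]
  rw [Real.div_rpow ht.le hM.le, Real.rpow_neg hM.le, norm_div, div_eq_inv_mul,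
    Real.norm_of_nonneg (Real.rpow_nonneg hM.le p)]

/-- the FE pair -/
def twPair {k : ℕ} (hk : 0 < k) (f : CuspForm 𝒮ℒ (k : ℤ)) {M : ℕ} [NeZero M] (χ : DirichletCharacter ℂ M)
    (hχ : χ ^ 2 = 1) : WeakFEPair ℂ where
  f := twG f χ
  g := twG f χ
  k := k
  hk := by exact_mod_cast hk
  ε := χ (-1) * I ^ k
  hε := by
    have h4 : χ (-1) * χ (-1) = 1 := by rw [← map_mul]; simp
    exact mul_ne_zero (left_ne_zero_of_mul (h4 ▸ one_ne_zero)) (pow_ne_zero _ I_ne_zero)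
  f₀ := 0
  g₀ := 0
  hf_int := (twG_cont f χ).locallyIntegrableOn measurableSet_Ioi
  hg_int := (twG_cont f χ).locallyIntegrableOn measurableSet_Ioi
  h_feq := by
    intro x hx
    rw [twG_feq f χ hχ x hx, smul_eq_mul, Real.rpow_natCast]
    push_cast
    ring
  hf_top r := by simpa using twG_decay f χ r
  hg_top r := by simpa using twG_decay f χ r

lemma twPair_strong {k : ℕ} (hk : 0 < k) (f : CuspForm 𝒮ℒ (k : ℤ)) {M : ℕ} [NeZero M]
    (χ : DirichletCharacter ℂ M) (hχ : χ ^ 2 = 1) : IsStrongFEPair (twPair hk f χ hχ) :=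
  ⟨rfl, rfl⟩

lemma tw_central {k : ℕ} (hk : 0 < k) (f : CuspForm 𝒮ℒ (k : ℤ)) {M : ℕ} [NeZero M]
    (χ : DirichletCharacter ℂ M) (hχ : χ ^ 2 = 1) (h : I ^ k * χ (-1) = -1) :
    (twPair hk f χ hχ).Λ (k / 2) = 0 := by
  have h1 := (twPair hk f χ hχ).functional_equation (k / 2)
  have h2 : (twPair hk f χ hχ).symm.Λ = (twPair hk f χ hχ).Λ := by
    rw [(twPair_strong hk f χ hχ).symm_Λ_eq, (twPair_strong hk f χ hχ).Λ_eq]
    rfl
  have h3 : (((twPair hk f χ hχ).k : ℝ) : ℂ) = k := by simp [twPair]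
  have h4 : (twPair hk f χ hχ).ε = -1 := by rw [← h, mul_comm]; rfl
  rw [h2, h3, h4] at h1
  have h5 : (k : ℂ) - k / 2 = k / 2 := by ring
  rw [h5, neg_one_smul] at h1
  exact self_eq_neg.mp h1

lemma twG_hasSum {k : ℕ} (f : CuspForm 𝒮ℒ (k : ℤ)) {M : ℕ} [NeZero M]
    (χ : DirichletCharacter ℂ M) (hp : χ.IsPrimitive) (hχ : χ ^ 2 = 1) (t : ℝ) (ht : 0 < t) :
    HasSum (fun n : ℕ => (gaussSum χ ZMod.stdAddChar * ((qExpansion 1 f).coeff n * χ n)) *
      ((rexp (-(2 * π * n / M) * t) : ℝ) : ℂ)) (twG f χ t) := by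
  have hM : (0 : ℝ) < M := by exact_mod_cast Nat.pos_of_ne_zero (NeZero.ne M)
  have h1 : ∀ u ∈ (Finset.univ : Finset (ZMod M)), HasSum (fun n : ℕ => χ u * ((qExpansion 1 f).coeff n *
      (cexp (2 * π * I * (n * ((u.val : ℝ) / M : ℝ))) * ((rexp (-(2 * π * n) * (t / M)) : ℝ) : ℂ))))
      (χ u * f (ofComplex ((((u.val : ℝ) / M : ℝ) : ℂ) + I * ((t / M : ℝ) : ℂ)))) := by
    intro u _
    exact (tw_hasSum f _ (t / M) (div_pos ht hM)).mul_left _
  have h2 := hasSum_sum h1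
  unfold twG
  convert h2 using 2 with n
  have h3 := tw_gauss χ hp hχ n
  have h4 : (rexp (-(2 * π * n / M) * t) : ℝ) = rexp (-(2 * π * n) * (t / M)) := by
    congr 1; ring
  rw [h4]
  calc _ = (qExpansion 1 f).coeff n * (χ n * gaussSum χ ZMod.stdAddChar) *
        ((rexp (-(2 * π * n) * (t / M)) : ℝ) : ℂ) := by ring
    _ = _ := by
      rw [← h3, Finset.mul_sum, Finset.sum_mul]
      refine Finset.sum_congr rfl fun u _ => ?_
      ring

theorem t_TWK : S_TWK := by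
  intro k hk f M χ hM hp hχ
  have : NeZero M := ⟨hM.ne'⟩
  have hMR : (0 : ℝ) < M := by exact_mod_cast hM
  set τ := gaussSum χ ZMod.stdAddChar with hτ
  have hτ0 : τ ≠ 0 := tw_gauss_ne χ hp
  set P := twPair hk f χ hχ with hP
  have hS : IsStrongFEPair P := twPair_strong hk f χ hχ
  have hb : ((2 * π / M : ℝ) : ℂ) ≠ 0 := by
    have : (2 * π / M : ℝ) ≠ 0 := by positivity
    exact_mod_cast this
  have hc0 : (qExpansion 1 f).coeff 0 = 0 :=
    CuspFormClass.qExpansion_coeff_zero f one_pos one_mem_strictPeriods_SL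
  refine ⟨fun s => P.Λ s * ((2 * π / M : ℝ) : ℂ) ^ s * τ⁻¹ * (Gamma s)⁻¹, ?_, ?_, ?_⟩
  · refine ((hS.differentiable_Λ.mul ?_).mul_const _).mul Complex.differentiable_one_div_Gamma
    intro s
    exact (differentiableAt_id.const_cpow (Or.inl hb))
  · intro s hs
    have hs0 : 0 < s.re := by
      have : (0 : ℝ) ≤ k := by positivity
      linarith
    have hO : (fun n : ℕ ↦ (qExpansion 1 f).coeff n) =O[atTop] fun n ↦ (n : ℝ) ^ ((k : ℝ) / 2) := by
      have := CuspFormClass.qExpansion_isBigO (Γ := 𝒮ℒ) (k := (k : ℤ)) f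
      rw [Subgroup.strictWidthInfty_SL2Z] at this
      simpa using this
    have hsum : Summable fun n : ℕ => ‖τ * ((qExpansion 1 f).coeff n * χ n)‖ / (2 * π * n / M) ^ s.re := by
      have hg : Summable fun n : ℕ => ‖(qExpansion 1 f).coeff n‖ / (n : ℝ) ^ s.re := by
        apply summable_of_isBigO_nat (Real.summable_nat_rpow.mpr <|
          show (k : ℝ) / 2 - s.re < -1 by linarith)
        simp only [Real.rpow_sub' (Nat.cast_nonneg _) (show (k : ℝ) / 2 - s.re ≠ 0 by linarith)]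
        simp only [div_eq_mul_inv]
        exact IsBigO.mul hO.norm_left (isBigO_refl _ _)
      refine Summable.of_nonneg_of_le (fun n => by positivity) (fun n => ?_)
        (hg.mul_left (‖τ‖ * ((2 * π / M) ^ s.re)⁻¹))
      have h1 : (2 * π * n / M : ℝ) ^ s.re = (2 * π / M) ^ s.re * (n : ℝ) ^ s.re := by
        rw [← Real.mul_rpow (by positivity) (by positivity)]
        congr 1; ring
      rw [h1, norm_mul, norm_mul]
      have h2 : ‖χ (n : ZMod M)‖ ≤ 1 := DirichletCharacter.norm_le_one χ _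
      calc ‖τ‖ * (‖(qExpansion 1 f).coeff n‖ * ‖χ (n : ZMod M)‖) / ((2 * π / M) ^ s.re * (n : ℝ) ^ s.re)
          ≤ ‖τ‖ * (‖(qExpansion 1 f).coeff n‖ * 1) / ((2 * π / M) ^ s.re * (n : ℝ) ^ s.re) := by
            gcongr
        _ = _ := by
            rw [mul_one, div_eq_mul_inv, div_eq_mul_inv, mul_inv]; ring
    have key := hasSum_mellin (a := fun n : ℕ => τ * ((qExpansion 1 f).coeff n * χ n))
      (p := fun n : ℕ => 2 * π * n / M) (F := P.f) (s := s) ?_ hs0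
      (fun t ht => twG_hasSum f χ hp hχ t ht) hsum
    · rw [← hS.Λ_eq] at key
      have key2 := key.mul_right (((2 * π / M : ℝ) : ℂ) ^ s * τ⁻¹ * (Gamma s)⁻¹)
      have hG : Gamma s ≠ 0 := Gamma_ne_zero_of_re_pos hs0
      have e1 : (fun s => P.Λ s * ((2 * π / M : ℝ) : ℂ) ^ s * τ⁻¹ * (Gamma s)⁻¹) s =
          P.Λ s * (((2 * π / M : ℝ) : ℂ) ^ s * τ⁻¹ * (Gamma s)⁻¹) := by
        simp only; ring
      rw [e1]
      suffices hfun : (fun n : ℕ => (qExpansion 1 f).coeff n * χ n * (n : ℂ) ^ (-s)) = _ by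
        rw [hfun]; exact key2
      · funext n
        rcases Nat.eq_zero_or_pos n with rfl | hn
        · simp [hc0]
        · have hn' : (n : ℂ) ≠ 0 := by exact_mod_cast hn.ne'
          have h1 : ((2 * π * n / M : ℝ) : ℂ) ^ s = ((2 * π / M : ℝ) : ℂ) ^ s * (n : ℂ) ^ s := by
            have : (2 * π * n / M : ℝ) = (2 * π / M) * n := by ring
            rw [this, Complex.ofReal_mul, Complex.mul_cpow_ofReal_nonneg (by positivity) (by positivity)]
            simp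
          have h2 : ((2 * π / M : ℝ) : ℂ) ^ s ≠ 0 := by
            rw [Ne, cpow_eq_zero_iff]; tauto
          have h3 : (n : ℂ) ^ s ≠ 0 := by
            rw [Ne, cpow_eq_zero_iff]; tauto
          rw [h1, cpow_neg]
          field_simp
    · intro n
      rcases Nat.eq_zero_or_pos n with rfl | hn
      · left; simp [hc0]
      · right; positivity
  · intro h
    have := tw_central hk f χ hχ h
    simp only [hP, this, zero_mul]

end

end Pool.Agent.H757D
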